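import Pool.Agent.BEL.Defs

/-!
# Squad BEL (MP_be01ff_an), POL: from the logarithmic density to a lower bound at all times
-/

namespace Pool.Agent.BEL.H69

open MeasureTheory Filter Topology Set

/-- The integral of `1/s` over a set which has no point in `(t, T]` is at most `log t`. -/
theorem pol_aux (A : Set ℝ) (t T : ℝ) (ht : 1 ≤ t) (hT : t ≤ T)
    (hA : ∀ s, t < s → s ≤ T → s ∉ A) :
    ∫ s in (1:ℝ)..T, A.indicator (fun s => s⁻¹) s ≤ Real.log t := by
  have h0 : 0 ≤ Real.log t := Real.log_nonneg ht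
  by_cases hi : IntervalIntegrable (fun s => A.indicator (fun s : ℝ => s⁻¹) s) volume 1 T
  · have hcont : IntervalIntegrable (fun s : ℝ => s⁻¹) volume 1 T := by
      refine (continuousOn_inv₀.mono ?_).intervalIntegrable
      intro s hs
      rw [uIcc_of_le (le_trans ht hT)] at hs
      have : s ≠ 0 := by
        have := hs.1
        intro h
        rw [h] at this
        linarith
      exact this
    have hh : IntervalIntegrable (fun s => ({x : ℝ | x ≤ t}).indicator (fun s : ℝ => s⁻¹) s)
        volume 1 T := by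
      rw [intervalIntegrable_iff] at hcont ⊢
      exact hcont.indicator measurableSet_Iic
    have h1 : ∫ s in (1:ℝ)..T, A.indicator (fun s => s⁻¹) s ≤
        ∫ s in (1:ℝ)..T, ({x : ℝ | x ≤ t}).indicator (fun s : ℝ => s⁻¹) s := by
      refine intervalIntegral.integral_mono_on (le_trans ht hT) hi hh ?_
      intro s hs
      have hs0 : 0 ≤ s⁻¹ := inv_nonneg.mpr (by linarith [hs.1])
      by_cases hst : s ≤ t
      · rw [indicator_of_mem (show s ∈ {x : ℝ | x ≤ t} from hst)]
        by_cases hsA : s ∈ A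
        · rw [indicator_of_mem hsA]
        · rw [indicator_of_notMem hsA]
          exact hs0
      · rw [indicator_of_notMem (hA s (not_le.mp hst) hs.2)]
        rw [indicator_of_notMem (show s ∉ {x : ℝ | x ≤ t} from hst)]
    have h2 : ∫ s in (1:ℝ)..T, ({x : ℝ | x ≤ t}).indicator (fun s : ℝ => s⁻¹) s =
        ∫ s in (1:ℝ)..t, s⁻¹ := intervalIntegral.integral_indicator ⟨ht, hT⟩
    rw [h2, integral_inv_of_pos one_pos (by linarith), div_one] at h1
    exact h1
  · rw [intervalIntegral.integral_undef hi]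
    exact h0

/-- POL. If `f` is nonincreasing for `t ≥ 0` and `c t^(-2/al) ≤ f t` on a set of times of
positive lower logarithmic density `g`, then `m (1+t)^(-4/(al g)) ≤ f t` for all `t ≥ 0`. -/
theorem pol (al c g : ℝ) (hal : 0 < al) (hc : 0 < c) (hg : 0 < g) (f : ℝ → ℝ)
    (hf : AntitoneOn f (Ici 0)) (h : LowLog {t | c * t ^ (-(2 / al)) ≤ f t} g) :
    ∃ m : ℝ, 0 < m ∧ ∀ t, 0 ≤ t → m * (1 + t) ^ (-(4 / (al * g))) ≤ f t := by
  obtain ⟨T0, hT0⟩ := eventually_atTop.mp h
  -- `g ≤ 1`
  have hg1 : g ≤ 1 := by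
    have h2 : (1 : ℝ) < max T0 2 := lt_of_lt_of_le (by norm_num) (le_max_right _ _)
    have hl : 0 < Real.log (max T0 2) := Real.log_pos h2
    have h3 := hT0 (max T0 2) (le_max_left _ _)
    have h4 := pol_aux {t | c * t ^ (-(2 / al)) ≤ f t} (max T0 2) (max T0 2) h2.le le_rfl
      (fun s hs hs' => absurd hs' (not_le.mpr hs))
    have h5 := le_trans h3 h4
    by_contra hcon
    push Not at hcon
    nlinarith
  set K : ℝ := 4 / (al * g) with hK
  have hKpos : 0 < K := by positivity
  -- the bound for large times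
  have key : ∀ t, max T0 2 ≤ t → c * t ^ (-K) ≤ f t := by
    intro t ht
    have ht2 : 2 ≤ t := le_trans (le_max_right _ _) ht
    have ht0 : 0 < t := by linarith
    have hTt : t ≤ t ^ (2 / g) := by
      calc t = t ^ (1 : ℝ) := (Real.rpow_one t).symm
        _ ≤ t ^ (2 / g) := Real.rpow_le_rpow_of_exponent_le (by linarith) (by
          rw [le_div_iff₀ hg]
          linarith)
    have hex : ∃ s, t < s ∧ s ≤ t ^ (2 / g) ∧ c * s ^ (-(2 / al)) ≤ f s := by
      by_contra hcon
      push Not at hcon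
      have h4 := pol_aux {t | c * t ^ (-(2 / al)) ≤ f t} t (t ^ (2 / g)) (by linarith) hTt
        (fun s hs hs' hmem => absurd hmem (not_le.mpr (hcon s hs hs')))
      have h3 := hT0 (t ^ (2 / g)) (le_trans (le_trans (le_max_left _ _) ht) hTt)
      have h5 := le_trans h3 h4
      rw [Real.log_rpow ht0] at h5
      have hl : 0 < Real.log t := Real.log_pos (by linarith)
      have h6 : g * (2 / g * Real.log t) = 2 * Real.log t := by
        field_simp
      rw [h6] at h5
      linarith
    obtain ⟨s, hs1, hs2, hs3⟩ := hex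
    have hs0 : 0 < s := lt_trans ht0 hs1
    have h7 : f s ≤ f t := hf (mem_Ici.mpr ht0.le) (mem_Ici.mpr hs0.le) hs1.le
    have h8 : (t ^ (2 / g)) ^ (-(2 / al)) ≤ s ^ (-(2 / al)) :=
      Real.rpow_le_rpow_of_nonpos hs0 hs2 (by
        have : 0 < 2 / al := by positivity
        linarith)
    have h9 : (t ^ (2 / g)) ^ (-(2 / al)) = t ^ (-K) := by
      rw [← Real.rpow_mul ht0.le]
      congr 1
      rw [hK]
      field_simp
      ring
    rw [h9] at h8
    calc c * t ^ (-K) ≤ c * s ^ (-(2 / al)) := by gcongr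
      _ ≤ f s := hs3
      _ ≤ f t := h7
  set T1 : ℝ := max T0 2 with hT1
  have hT1p : 0 < T1 := lt_of_lt_of_le (by norm_num) (le_max_right _ _)
  have hm0 : 0 < c * T1 ^ (-K) := by positivity
  refine ⟨min c (c * T1 ^ (-K)), lt_min hc hm0, ?_⟩
  intro t ht
  rcases le_total T1 t with h1 | h1
  · have ht0 : 0 < t := lt_of_lt_of_le hT1p h1
    calc min c (c * T1 ^ (-K)) * (1 + t) ^ (-K) ≤ c * (1 + t) ^ (-K) := by
          gcongr
          exact min_le_left _ _
      _ ≤ c * t ^ (-K) := by
          have : (1 + t) ^ (-K) ≤ t ^ (-K) :=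
            Real.rpow_le_rpow_of_nonpos ht0 (by linarith) (by linarith)
          gcongr
      _ ≤ f t := key t h1
  · have h2 : (1 + t) ^ (-K) ≤ 1 :=
      Real.rpow_le_one_of_one_le_of_nonpos (by linarith) (by linarith)
    have h3 : 0 ≤ (1 + t) ^ (-K) := Real.rpow_nonneg (by linarith) _
    calc min c (c * T1 ^ (-K)) * (1 + t) ^ (-K) ≤ (c * T1 ^ (-K)) * 1 := by
          refine mul_le_mul (min_le_right _ _) h2 h3 hm0.le
      _ = c * T1 ^ (-K) := mul_one _
      _ ≤ f T1 := key T1 le_rfl
      _ ≤ f t := hf (mem_Ici.mpr ht) (mem_Ici.mpr hT1p.le) h1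

end Pool.Agent.BEL.H69
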