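import Pool.Agent.Helper60_BEL.PRD

/-!
# Squad BEL (MP_be01ff_an), row IBP: integration by parts
-/

set_option autoImplicit false

noncomputable section

namespace Pool.Agent.BEL.H69

open Set Filter Topology MeasureTheory
open scoped InnerProductSpace ENNReal
open Pool.Agent.BE01
open Pool.Agent.BEL.H60

/-- the partial derivative -/
def pd {d : ℕ} (f : En d → ℝ) (i : Fin d) (x : En d) : ℝ :=
  fderiv ℝ f x (EuclideanSpace.basisFun (Fin d) ℝ i)

/-- the Laplacian -/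
def lpl {d : ℕ} (f : En d → ℝ) (x : En d) : ℝ := ∑ i, pd (pd f i) i x

theorem pd_smooth {d : ℕ} {f : En d → ℝ} (hf : ContDiff ℝ ((⊤ : ℕ∞) : WithTop ℕ∞) f)
    (i : Fin d) : ContDiff ℝ ((⊤ : ℕ∞) : WithTop ℕ∞) (pd f i) :=
  (hf.fderiv_right (m := ((⊤ : ℕ∞) : WithTop ℕ∞)) (by simp)).clm_apply contDiff_const

theorem pd_supp {d : ℕ} {f : En d → ℝ} (hf : HasCompactSupport f) (i : Fin d) :
    HasCompactSupport (pd f i) :=
  (hf.fderiv ℝ).comp_left
    (g := fun L : En d →L[ℝ] ℝ => L (EuclideanSpace.basisFun (Fin d) ℝ i)) rfl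

theorem inner_grad {d : ℕ} (f g : En d → ℝ) (x : En d) :
    ⟪gradient f x, gradient g x⟫_ℝ = ∑ i, pd f i x * pd g i x := by
  rw [← (EuclideanSpace.basisFun (Fin d) ℝ).sum_inner_mul_inner]
  refine Finset.sum_congr rfl fun i _ => ?_
  have e1 : ⟪gradient f x, (EuclideanSpace.basisFun (Fin d) ℝ) i⟫_ℝ = pd f i x := by
    unfold gradient pd
    exact InnerProductSpace.toDual_symm_apply
  have e2 : ⟪(EuclideanSpace.basisFun (Fin d) ℝ) i, gradient g x⟫_ℝ = pd g i x := by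
    rw [real_inner_comm]
    unfold gradient pd
    exact InnerProductSpace.toDual_symm_apply
  rw [e1, e2]

theorem int_zero {d : ℕ} {Ω : Set (En d)} {f h : En d → ℝ}
    (hf : ContDiff ℝ ((⊤ : ℕ∞) : WithTop ℕ∞) f) (hfs : HasCompactSupport f) (hh : Tst Ω h) :
    ∫ x, (⟪gradient f x, gradient h x⟫_ℝ + h x * lpl f x) ∂(mu Ω) = 0 := by
  have hc : ∀ i, Continuous (pd f i) := fun i => (pd_smooth hf i).continuous
  have hc2 : ∀ i, Continuous (pd (pd f i) i) := fun i =>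
    (pd_smooth (pd_smooth hf i) i).continuous
  have hch : ∀ i, Continuous (pd h i) := fun i => (pd_smooth hh.1 i).continuous
  have i1 : ∀ i, Integrable (fun x => pd f i x * pd h i x) volume := fun i =>
    ((hc i).mul (hch i)).integrable_of_hasCompactSupport ((pd_supp hfs i).mul_right)
  have i2 : ∀ i, Integrable (fun x => pd (pd f i) i x * h x) volume := fun i =>
    ((hc2 i).mul hh.1.continuous).integrable_of_hasCompactSupport
      ((pd_supp (pd_supp hfs i) i).mul_right)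
  have i3 : ∀ i, Integrable (fun x => pd f i x * h x) volume := fun i =>
    ((hc i).mul hh.1.continuous).integrable_of_hasCompactSupport ((pd_supp hfs i).mul_right)
  have h0 : ∀ x, x ∉ Ω → ⟪gradient f x, gradient h x⟫_ℝ + h x * lpl f x = 0 := by
    intro x hx
    have hx1 : x ∉ tsupport h := fun hx' => hx (hh.2.2 hx')
    have e1 : h x = 0 := image_eq_zero_of_notMem_tsupport hx1
    have e2 : gradient h x = 0 := by
      unfold gradient
      rw [fderiv_of_notMem_tsupport (𝕜 := ℝ) hx1, map_zero]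
    rw [e1, e2, inner_zero_right, zero_mul, add_zero]
  have e0 : ∫ x, (⟪gradient f x, gradient h x⟫_ℝ + h x * lpl f x) ∂(mu Ω) =
      ∫ x, (⟪gradient f x, gradient h x⟫_ℝ + h x * lpl f x) := by
    unfold mu
    exact setIntegral_eq_integral_of_forall_compl_eq_zero h0
  rw [e0]
  have e1 : (fun x => ⟪gradient f x, gradient h x⟫_ℝ + h x * lpl f x) =
      fun x => ∑ i, (pd f i x * pd h i x + pd (pd f i) i x * h x) := by
    funext x
    rw [inner_grad, Finset.sum_add_distrib]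
    unfold lpl
    rw [Finset.mul_sum]
    congr 1
    exact Finset.sum_congr rfl fun i _ => mul_comm _ _
  have i4 : ∀ i ∈ (Finset.univ : Finset (Fin d)),
      Integrable (fun x => pd f i x * pd h i x + pd (pd f i) i x * h x) volume :=
    fun i _ => (i1 i).add (i2 i)
  rw [e1, integral_finset_sum _ i4]
  refine Finset.sum_eq_zero fun i _ => ?_
  rw [integral_add (i1 i) (i2 i)]
  have e2 : ∫ x, pd f i x * pd h i x = - ∫ x, pd (pd f i) i x * h x :=
    integral_mul_fderiv_eq_neg_fderiv_mul_of_integrable (i2 i) (i1 i) (i3 i)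
      (fun x _ => (pd_smooth hf i).differentiable (by simp) x)
      (fun x _ => hh.1.differentiable (by simp) x)
  rw [e2]
  ring

theorem lpl_cont {d : ℕ} {f : En d → ℝ} (hf : ContDiff ℝ ((⊤ : ℕ∞) : WithTop ℕ∞) f) :
    Continuous (lpl f) :=
  continuous_finset_sum _ fun i _ => (pd_smooth (pd_smooth hf i) i).continuous

theorem lpl_bdd {d : ℕ} {f : En d → ℝ} (hf : ContDiff ℝ ((⊤ : ℕ∞) : WithTop ℕ∞) f)
    (hfs : HasCompactSupport f) : ∃ M : ℝ, ∀ x, ‖lpl f x‖ ≤ M := by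
  have h1 : ∀ i, ∃ M : ℝ, ∀ x, ‖pd (pd f i) i x‖ ≤ M := fun i =>
    (pd_smooth (pd_smooth hf i) i).continuous.bounded_above_of_compact_support
      (pd_supp (pd_supp hfs i) i)
  choose M hM using h1
  exact ⟨∑ i, M i, fun x => (norm_sum_le _ _).trans (Finset.sum_le_sum fun i _ => hM i x)⟩

theorem ibp : IbpStmt := by
  intro d Ω ι f hΩ hι hf hfs
  have hgc : Continuous (gradient f) := grad_cont hf
  obtain ⟨M', hM'⟩ := hgc.bounded_above_of_compact_support (grad_supp hfs)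
  obtain ⟨M, hM⟩ := lpl_bdd hf hfs
  have hq : Continuous (lpl f) := lpl_cont hf
  refine ⟨lpl f, M, hq, fun x => by simpa using hM x, ?_⟩
  intro G H
  -- the bilinear expression
  let E : VV Ω → VV Ω → ℝ := fun G H =>
    ⟪mr hgc hM' (ι G), (H : Lp (En d) 2 (mu Ω))⟫_ℝ + ⟪mr hgc hM' (ι H), (G : Lp (En d) 2 (mu Ω))⟫_ℝ
      + ⟪ml hq hM (ι G), ι H⟫_ℝ
  have hE : ∀ G H : VV Ω, ∫ x, ι G x * ⟪gradient f x, (H : Lp (En d) 2 (mu Ω)) x⟫_ℝ +
      ι H x * ⟪gradient f x, (G : Lp (En d) 2 (mu Ω)) x⟫_ℝ + ι G x * ι H x * lpl f x ∂(mu Ω)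
      = E G H := by
    intro G H
    show _ = ⟪mr hgc hM' (ι G), (H : Lp (En d) 2 (mu Ω))⟫_ℝ +
      ⟪mr hgc hM' (ι H), (G : Lp (En d) 2 (mu Ω))⟫_ℝ + ⟪ml hq hM (ι G), ι H⟫_ℝ
    rw [L2.inner_def, L2.inner_def, L2.inner_def,
      ← integral_add (L2.integrable_inner _ _) (L2.integrable_inner _ _),
      ← integral_add ((L2.integrable_inner _ _).add (L2.integrable_inner _ _))
        (L2.integrable_inner _ _)]
    refine integral_congr_ae ?_
    filter_upwards [mr_coe hgc hM' (ι G), mr_coe hgc hM' (ι H), ml_coe hq hM (ι G)]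
      with x e1 e2 e3
    rw [e1, e2, e3, real_inner_smul_left, real_inner_smul_left, smul_eq_mul]
    have e4 : ⟪lpl f x * ι G x, ι H x⟫_ℝ = ι H x * (lpl f x * ι G x) := rfl
    rw [e4]
    ring
  rw [hE]
  -- approximation
  have happ : ∀ G : VV Ω, ∃ (ψ : ℕ → En d → ℝ) (g : ℕ → VV Ω), (∀ n, Tst Ω (ψ n)) ∧
      (∀ n, (g n : Lp (En d) 2 (mu Ω)) =ᵐ[mu Ω] gradient (ψ n)) ∧ Tendsto g atTop (𝓝 G) := by
    intro G
    have hG : (G : Lp (En d) 2 (mu Ω)) ∈
        closure {G : Lp (En d) 2 (mu Ω) | ∃ ψ, Tst Ω ψ ∧ G =ᵐ[mu Ω] gradient ψ} :=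
      (Pool.Agent.BE01.H69.mem_VV_iff Ω _).mp G.2
    obtain ⟨g, hg, hgG⟩ := mem_closure_iff_seq_limit.mp hG
    choose ψ hψ hgψ using hg
    exact ⟨ψ, fun n => ⟨g n, (Pool.Agent.BE01.H69.mem_VV_iff Ω _).mpr
      (subset_closure ⟨ψ n, hψ n, hgψ n⟩)⟩, hψ, hgψ, tendsto_subtype_rng.mpr hgG⟩
  obtain ⟨φ, g, hφ, hgφ, hgG⟩ := happ G
  obtain ⟨ψ, h, hψ, hhψ, hhH⟩ := happ H
  have hzero : ∀ n, E (g n) (h n) = 0 := by
    intro n
    rw [← hE]
    have hprod : Tst Ω (fun y => φ n y * ψ n y) := tst_mul (hφ n).1 (hψ n)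
    rw [← int_zero hf hfs hprod]
    refine integral_congr_ae ?_
    filter_upwards [hι (φ n) (hφ n) (g n) (hgφ n), hι (ψ n) (hψ n) (h n) (hhψ n), hgφ n, hhψ n]
      with x e1 e2 e3 e4
    rw [e1, e2, e3, e4, grad_mul (hφ n).1 (hψ n).1, inner_add_right, real_inner_smul_right,
      real_inner_smul_right]
  have hιG : Tendsto (fun n => ι (g n)) atTop (𝓝 (ι G)) := (ι.continuous.tendsto G).comp hgG
  have hιH : Tendsto (fun n => ι (h n)) atTop (𝓝 (ι H)) := (ι.continuous.tendsto H).comp hhH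
  have hg' : Tendsto (fun n => (g n : Lp (En d) 2 (mu Ω))) atTop (𝓝 (G : Lp (En d) 2 (mu Ω))) :=
    (continuous_subtype_val.tendsto G).comp hgG
  have hh' : Tendsto (fun n => (h n : Lp (En d) 2 (mu Ω))) atTop (𝓝 (H : Lp (En d) 2 (mu Ω))) :=
    (continuous_subtype_val.tendsto H).comp hhH
  have hlim : Tendsto (fun n => E (g n) (h n)) atTop (𝓝 (E G H)) :=
    (((mr_lim hgc hM' _ _ hιG).inner hh').add ((mr_lim hgc hM' _ _ hιH).inner hg')).add
      ((ml_lim hq hM _ _ hιG).inner hιH)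
  have hlim0 : Tendsto (fun n => E (g n) (h n)) atTop (𝓝 0) := by
    simp only [hzero]
    exact tendsto_const_nhds
  exact tendsto_nhds_unique hlim hlim0

end Pool.Agent.BEL.H69
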