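import Mathlib
import Pool.Agent.Helper10_Oh.ODE

/-!
# Squad BEL: global solutions of globally Lipschitz differential equations in a Banach space
-/

set_option autoImplicit false

open Set Filter Topology Metric
open scoped NNReal

noncomputable section

namespace Pool.Agent.BEL.H69

/-- the radial retraction on the ball of radius `R` -/
def ret {E : Type*} [NormedAddCommGroup E] [NormedSpace ℝ E] (R : ℝ) (x : E) : E :=
  (R / max R ‖x‖) • x

theorem ret_norm {E : Type*} [NormedAddCommGroup E] [NormedSpace ℝ E] {R : ℝ} (hR : 0 < R)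
    (x : E) : ‖ret R x‖ ≤ R := by
  unfold ret
  rw [norm_smul, Real.norm_eq_abs, abs_of_nonneg (by positivity), div_mul_eq_mul_div,
    div_le_iff₀ (lt_max_of_lt_left hR)]
  exact mul_le_mul_of_nonneg_left (le_max_right _ _) hR.le

theorem ret_eq {E : Type*} [NormedAddCommGroup E] [NormedSpace ℝ E] {R : ℝ} (hR : 0 < R)
    {x : E} (hx : ‖x‖ ≤ R) : ret R x = x := by
  unfold ret
  rw [max_eq_left hx, div_self hR.ne', one_smul]

theorem ret_lip {E : Type*} [NormedAddCommGroup E] [NormedSpace ℝ E] {R : ℝ} (hR : 0 < R)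
    (x y : E) : ‖ret R x - ret R y‖ ≤ 2 * ‖x - y‖ := by
  wlog h : ‖y‖ ≤ ‖x‖ generalizing x y with H
  · have := H y x (le_of_not_ge h)
    rw [norm_sub_rev, norm_sub_rev x y]
    exact this
  have hx0 : 0 < max R ‖x‖ := lt_max_of_lt_left hR
  have hy0 : 0 < max R ‖y‖ := lt_max_of_lt_left hR
  have hmm : max R ‖y‖ ≤ max R ‖x‖ := max_le_max le_rfl h
  have e1 : ret R x - ret R y = (R / max R ‖x‖) • (x - y) +
      (R / max R ‖x‖ - R / max R ‖y‖) • y := by
    unfold ret
    rw [smul_sub, sub_smul]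
    abel
  have a1 : ‖(R / max R ‖x‖) • (x - y)‖ ≤ ‖x - y‖ := by
    rw [norm_smul, Real.norm_eq_abs, abs_of_nonneg (by positivity)]
    have : R / max R ‖x‖ ≤ 1 := (div_le_one hx0).2 (le_max_left _ _)
    exact mul_le_of_le_one_left (norm_nonneg _) this
  have a2 : ‖(R / max R ‖x‖ - R / max R ‖y‖) • y‖ ≤ ‖x - y‖ := by
    rw [norm_smul, Real.norm_eq_abs]
    have b1 : R / max R ‖x‖ - R / max R ‖y‖ = -(R * (max R ‖x‖ - max R ‖y‖)) /
        (max R ‖x‖ * max R ‖y‖) := by
      field_simp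
      ring
    have b2 : max R ‖x‖ - max R ‖y‖ ≤ ‖x‖ - ‖y‖ := by
      rcases le_total R ‖y‖ with h1 | h1
      · rw [max_eq_right h1, max_eq_right (h1.trans h)]
      · rw [max_eq_left h1]
        rcases le_total R ‖x‖ with h2 | h2
        · rw [max_eq_right h2]; linarith
        · rw [max_eq_left h2]; linarith
    have b3 := norm_sub_norm_le x y
    rw [b1, abs_div, abs_neg, abs_mul, abs_of_pos hR, abs_of_nonneg (sub_nonneg.2 hmm),
      abs_of_pos (mul_pos hx0 hy0), div_mul_eq_mul_div, div_le_iff₀ (mul_pos hx0 hy0)]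
    have b4 : R ≤ max R ‖x‖ := le_max_left _ _
    have b5 : ‖y‖ ≤ max R ‖y‖ := le_max_right _ _
    have b6 : 0 ≤ max R ‖x‖ - max R ‖y‖ := sub_nonneg.2 hmm
    calc R * (max R ‖x‖ - max R ‖y‖) * ‖y‖ ≤ max R ‖x‖ * ‖x - y‖ * max R ‖y‖ := by
          have c1 : R * (max R ‖x‖ - max R ‖y‖) ≤ max R ‖x‖ * ‖x - y‖ :=
            mul_le_mul b4 (b2.trans b3) b6 hx0.le
          exact mul_le_mul c1 b5 (norm_nonneg _) (by positivity)
      _ = ‖x - y‖ * (max R ‖x‖ * max R ‖y‖) := by ring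
  rw [e1]
  have := norm_add_le ((R / max R ‖x‖) • (x - y)) ((R / max R ‖x‖ - R / max R ‖y‖) • y)
  linarith

/-- PIC: global solutions of globally Lipschitz differential equations -/
theorem pic {E : Type*} [NormedAddCommGroup E] [NormedSpace ℝ E] [CompleteSpace E]
    (f : ℝ → E → E) (K : ℝ≥0) (hK : ∀ t, LipschitzWith K (f t))
    (hc : ∀ x, Continuous fun t => f t x) (x : E) :
    ∃ α : ℝ → E, α 0 = x ∧ ∀ t, HasDerivAt α (f t (α t)) t := by
  -- on a bounded interval
  have h1 : ∀ n : ℕ, ∃ α : ℝ → E, α 0 = x ∧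
      ∀ t ∈ Ioo (-((n : ℝ) + 1)) ((n : ℝ) + 1), HasDerivAt α (f t (α t)) t := by
    intro n
    obtain ⟨T, hT⟩ : ∃ T : ℝ, T = (n : ℝ) + 1 := ⟨_, rfl⟩
    have hT0 : 0 < T := by rw [hT]; positivity
    -- bound of `f t 0`
    obtain ⟨B, hB⟩ : ∃ B : ℝ, ∀ t ∈ Icc (-T) T, ‖f t 0‖ ≤ B := by
      obtain ⟨t0, -, ht0⟩ := (isCompact_Icc (a := -T) (b := T)).exists_isMaxOn
        ⟨0, by constructor <;> linarith⟩ ((hc 0).norm.continuousOn)
      exact ⟨‖f t0 0‖, fun t ht => ht0 ht⟩
    have hB0 : 0 ≤ B := (norm_nonneg _).trans (hB 0 ⟨by linarith, by linarith⟩)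
    -- the radius
    obtain ⟨R, hR⟩ : ∃ R : ℝ, R = gronwallBound ‖x‖ (2 * (K + 1)) B T + 1 := ⟨_, rfl⟩
    have hgr : ∀ s ∈ Icc 0 T, gronwallBound ‖x‖ (2 * (K + 1)) B s ≤ R - 1 := by
      intro s hs
      rw [hR, add_sub_cancel_right]
      exact gronwallBound_mono (norm_nonneg _) hB0 (by positivity) hs.2
    have hR0 : 0 < R := by
      have := hgr 0 ⟨le_rfl, hT0.le⟩
      rw [gronwallBound_x0] at this
      have := norm_nonneg x
      linarith
    let cl : ℝ → ℝ := fun t => max (-T) (min T t)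
    have hclc : Continuous cl := by fun_prop
    have hclm : ∀ t, cl t ∈ Icc (-T) T := fun t =>
      ⟨le_max_left _ _, max_le (by linarith) (min_le_left _ _)⟩
    have hcl : ∀ t ∈ Icc (-T) T, cl t = t := fun t ht => by
      show max (-T) (min T t) = t
      rw [min_eq_right ht.2, max_eq_right ht.1]
    let g : ℝ → E → E := fun t y => f (cl t) (ret R y)
    have hgK : ∀ t, LipschitzWith (K * 2) (g t) := by
      intro t
      apply LipschitzWith.of_dist_le_mul
      intro y z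
      have e1 := (hK (cl t)).dist_le_mul (ret R y) (ret R z)
      have e2 : dist (ret R y) (ret R z) ≤ 2 * dist y z := by
        rw [dist_eq_norm, dist_eq_norm]
        exact ret_lip hR0 y z
      calc dist (g t y) (g t z) ≤ K * dist (ret R y) (ret R z) := e1
        _ ≤ K * (2 * dist y z) := mul_le_mul_of_nonneg_left e2 K.2
        _ = ((K * 2 : ℝ≥0) : ℝ) * dist y z := by push_cast; ring
    have hgc : ∀ y, Continuous fun t => g t y := fun y => (hc (ret R y)).comp hclc
    have hgb : ∀ t y, ‖g t y‖ ≤ ((⟨B + K * R, by positivity⟩ : ℝ≥0) : ℝ) := by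
      intro t y
      show ‖f (cl t) (ret R y)‖ ≤ B + K * R
      have e1 := (hK (cl t)).dist_le_mul (ret R y) 0
      rw [dist_eq_norm, dist_zero_right] at e1
      have e2 := norm_le_norm_add_norm_sub' (f (cl t) (ret R y)) (f (cl t) 0)
      have e3 := hB (cl t) (hclm t)
      have e4 := mul_le_mul_of_nonneg_left (ret_norm hR0 y) K.2
      have e5 : (K : ℝ) * ‖ret R y‖ ≤ K * R := e4
      linarith
    obtain ⟨α, hα0, hα⟩ := Pool.Agent.Helper10_Oh.exists_global g (K * 2)
      ⟨B + K * R, by positivity⟩ hgK hgc hgb x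
    have hgn : ∀ t y, ‖g t y‖ ≤ 2 * (K + 1) * ‖y‖ + B := by
      intro t y
      show ‖f (cl t) (ret R y)‖ ≤ _
      have e1 := (hK (cl t)).dist_le_mul (ret R y) 0
      rw [dist_eq_norm, dist_zero_right] at e1
      have e2 := norm_le_norm_add_norm_sub' (f (cl t) (ret R y)) (f (cl t) 0)
      have e3 := hB (cl t) (hclm t)
      have e4 : ‖ret R y‖ ≤ 2 * ‖y‖ := by
        have := ret_lip hR0 y 0
        have h0 : ret R (0 : E) = 0 := by simp [ret]
        rwa [h0, sub_zero, sub_zero] at this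
      have e5 := mul_le_mul_of_nonneg_left e4 K.2
      have e6 : (K : ℝ) * ‖ret R y‖ ≤ K * (2 * ‖y‖) := e5
      have := norm_nonneg y
      nlinarith
    -- the solution stays in the ball
    have hfwd : ∀ t ∈ Icc 0 T, ‖α t‖ ≤ R - 1 := by
      intro t ht
      have h := norm_le_gronwallBound_of_norm_deriv_right_le (f := α) (f' := fun s => g s (α s))
        (δ := ‖x‖) (K := 2 * (K + 1)) (ε := B) (a := 0) (b := T)
        (fun s _ => (hα s).continuousAt.continuousWithinAt)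
        (fun s _ => (hα s).hasDerivWithinAt) (by rw [hα0]) (fun s _ => hgn s (α s)) t ht
      rw [sub_zero] at h
      exact h.trans (hgr t ht)
    have hbwd : ∀ t ∈ Icc 0 T, ‖α (-t)‖ ≤ R - 1 := by
      intro t ht
      have hd : ∀ s : ℝ, HasDerivAt (fun s => α (-s)) (-(g (-s) (α (-s)))) s := by
        intro s
        have h0 := (hα (-s)).scomp s (hasDerivAt_neg s)
        rw [neg_one_smul] at h0
        exact h0
      have h := norm_le_gronwallBound_of_norm_deriv_right_le (f := fun s => α (-s))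
        (f' := fun s => -(g (-s) (α (-s))))
        (δ := ‖x‖) (K := 2 * (K + 1)) (ε := B) (a := 0) (b := T)
        (fun s _ => (hd s).continuousAt.continuousWithinAt)
        (fun s _ => (hd s).hasDerivWithinAt) (by simp [hα0])
        (fun s _ => by rw [norm_neg]; exact hgn (-s) (α (-s))) t ht
      rw [sub_zero] at h
      exact h.trans (hgr t ht)
    refine ⟨α, hα0, fun t ht => ?_⟩
    rw [← hT] at ht
    have hball : ‖α t‖ ≤ R := by
      rcases le_total 0 t with h0 | h0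
      · have := hfwd t ⟨h0, ht.2.le⟩
        linarith
      · have := hbwd (-t) ⟨by linarith, by linarith [ht.1]⟩
        rw [neg_neg] at this
        linarith
    have e1 : g t (α t) = f t (α t) := by
      show f (cl t) (ret R (α t)) = _
      rw [hcl t ⟨ht.1.le, ht.2.le⟩, ret_eq hR0 hball]
    rw [← e1]
    exact hα t
  choose α hα0 hα using h1
  have h2 : ∀ n m : ℕ, n ≤ m → EqOn (α n) (α m) (Ioo (-((n : ℝ) + 1)) ((n : ℝ) + 1)) := by
    intro n m hnm
    have hnm' : (n : ℝ) ≤ m := by exact_mod_cast hnm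
    have hn : (0 : ℝ) < (n : ℝ) + 1 := by positivity
    refine ODE_solution_unique_of_mem_Ioo (v := f) (s := fun _ => univ) (K := K) (t₀ := 0)
      (fun t _ => (hK t).lipschitzOnWith) ⟨by linarith, by linarith⟩
      (fun t ht => ⟨hα n t ht, mem_univ _⟩)
      (fun t ht => ⟨hα m t ⟨by linarith [ht.1], by linarith [ht.2]⟩, mem_univ _⟩) ?_
    rw [hα0, hα0]
  refine ⟨fun t => α ⌊|t|⌋₊ t, by simp [hα0], fun t => ?_⟩
  have hlt : ∀ s : ℝ, s ∈ Ioo (-((⌊|s|⌋₊ : ℝ) + 1)) ((⌊|s|⌋₊ : ℝ) + 1) := by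
    intro s
    have := Nat.lt_floor_add_one |s|
    rw [abs_lt] at this
    exact this
  have heq : ∀ s : ℝ, |s| < |t| + 1 → α ⌊|s|⌋₊ s = α (⌊|t|⌋₊ + 1) s := by
    intro s hs
    refine h2 _ _ ?_ (hlt s)
    have h3 : ⌊|s|⌋₊ ≤ ⌊|t| + 1⌋₊ := Nat.floor_le_floor hs.le
    rwa [Nat.floor_add_one (abs_nonneg t)] at h3
  have hev : (fun s => α ⌊|s|⌋₊ s) =ᶠ[𝓝 t] α (⌊|t|⌋₊ + 1) := by
    have : {s : ℝ | |s| < |t| + 1} ∈ 𝓝 t :=
      (isOpen_lt continuous_abs continuous_const).mem_nhds (by simp)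
    exact Filter.mem_of_superset this heq
  have h4 := hα (⌊|t|⌋₊ + 1) t (by
    have := hlt t
    push_cast
    exact ⟨by linarith [this.1], by linarith [this.2]⟩)
  have h5 : (fun s => α ⌊|s|⌋₊ s) t = α (⌊|t|⌋₊ + 1) t := hev.self_of_nhds
  change HasDerivAt (fun s => α ⌊|s|⌋₊ s) (f t ((fun s => α ⌊|s|⌋₊ s) t)) t
  rw [h5]
  exact h4.congr_of_eventuallyEq hev

end Pool.Agent.BEL.H69
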