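import Pool.Agent.BEL.Defs3
import Pool.Agent.Helper53_BEL.All
import Pool.Agent.Helper65_BEL.FIN3
import Pool.Agent.Helper65_BEL.TRC
import Pool.Agent.Helper33_BEL.SOB
import Pool.Agent.Helper33_BEL.CLO
import Pool.Agent.Helper33_BEL.ENM
import Pool.Agent.Helper64_BEL.EMP
import Pool.Agent.Helper77_BEL.LPE
import Pool.Agent.Helper76_BEL.TRN
import Pool.Agent.Helper90_BEL.AVO
import Pool.Agent.Helper31_BEL.RLC
import Pool.Agent.Helper23_BEL.NSH
import Pool.Agent.Helper22_BEL.BMP
import Pool.Agent.Helper70_BEL.EIG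
import Pool.Agent.Helper70_BEL.LON
import Pool.Agent.Helper70_BEL.TRW
import Pool.Agent.Helper35_BEL.CH2
import Pool.Agent.Helper35_BEL.SHL
import Pool.Agent.Helper9_BEL.LSM
import Pool.Agent.Helper20_BEL.ULT
import Pool.Agent.Helper24_BEL.LIN
import Pool.Agent.Helper30_BEL.LWU
import Pool.Agent.Helper41_BEL.LWL
import Pool.Agent.Helper60_BEL.GRW
import Pool.Agent.Helper60_BEL.PRD
import Pool.Agent.Helper69_BEL.IBP
import Pool.Agent.Helper61_BEL.COM
import Pool.Agent.Helper61_BEL.ITR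
import Pool.Agent.Helper32_BEL.INP
import Pool.Agent.Helper62_BEL.TRL

/-!
# Squad BEL (MP_be01ff_an): the final theorem without hypotheses
-/

namespace Pool.Agent.BEL.H69

/-- The rows of squad BEL. -/
theorem fin : Fin3Stmt := by
  have sob : SobStmt := H33.sob
  have emp : EmpStmt := H64.emp sob
  have lpe : LpeStmt := H77.lpe sob
  have avo : AvoStmt := H90.avo H76.trn
  have eig : EigStmt := H70.eig (H31.rlc avo) H33.clo H33.enm H22.bmp
  have lsm : LsmStmt := H9.lsm (H70.lon H35.ch2)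
  have grw : GrwStmt := H60.grw (H30.lwu (H24.lin (H20.ult lsm (H23.nsh avo)))) (H41.lwl H22.bmp)
  have itr : ItrStmt := H61.itr grw H35.shl (H61.com H60.prd H69.ibp)
  have inp : InpStmt := H32.inp lpe grw itr
  exact H65.fin3 emp eig inp (H62.trl (H70.trw lpe)) (H65.trc lpe) H53.wpcA H53.core2

end Pool.Agent.BEL.H69
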