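import Pool.Agent.Helper69_BEL.Asm

/-!
# `MP_be01ff_an`, `AllDomains`: definitions of the statement

`LS Ω`, `LV Ω` are the real valued and the vector valued `L^2` spaces of the open set `Ω`, with
Mathlib's norm and integral; `fn` is the function which belongs to an element.
-/

namespace Pool.Agent.BEL.Pub

open Set Filter Topology MeasureTheory
open scoped InnerProductSpace ENNReal
open Pool.Agent.BE01

noncomputable section

variable {d : ℕ}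

/-- The real Hilbert space `L^2(Ω)`. -/
def LS (Ω : Set (En d)) : Type := Lp ℝ 2 (mu Ω)

instance instLS (Ω : Set (En d)) : NormedAddCommGroup (LS Ω) :=
  (Lp.instNormedAddCommGroup : NormedAddCommGroup (Lp ℝ 2 (mu Ω)))

instance instNS (Ω : Set (En d)) : NormedSpace ℝ (LS Ω) :=
  (Lp.instNormedSpace : NormedSpace ℝ (Lp ℝ 2 (mu Ω)))

/-- The Hilbert space of the vector fields in `L^2(Ω)`. -/
def LV (Ω : Set (En d)) : Type := Lp (En d) 2 (mu Ω)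

instance instLV (Ω : Set (En d)) : NormedAddCommGroup (LV Ω) :=
  (Lp.instNormedAddCommGroup : NormedAddCommGroup (Lp (En d) 2 (mu Ω)))

/-- The function (defined almost everywhere) of an element of `L^2(Ω)`. -/
def LS.fn {Ω : Set (En d)} (u : LS Ω) : En d → ℝ := ((show Lp ℝ 2 (mu Ω) from u) : En d → ℝ)

/-- The vector field (defined almost everywhere) of an element of `L^2(Ω)`. -/
def LV.fn {Ω : Set (En d)} (G : LV Ω) : En d → En d := ((show Lp (En d) 2 (mu Ω) from G) : En d → En d)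

/-- The Sobolev space `H^1_0(Ω)`, as the set of the pairs `(u, ∇u)`: the closure in `L^2 × L^2` of
the set of the pairs `(ψ, ∇ψ)`, `ψ` a test function. -/
def H1 (Ω : Set (En d)) : Set (LS Ω × LV Ω) :=
  closure {P | ∃ ψ, Tst Ω ψ ∧ P.1.fn =ᵐ[mu Ω] ψ ∧ P.2.fn =ᵐ[mu Ω] gradient ψ}

/-- The energy `∫ v^2 + |G|^2`. -/
def energy {Ω : Set (En d)} (v : LS Ω) (G : LV Ω) : ℝ := ∫ x, v.fn x ^ 2 + ‖G.fn x‖ ^ 2 ∂(mu Ω)

/-- The dissipation `∫ |v|^(α + 2)`, in `[0, ∞]`. -/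
def dissip {Ω : Set (En d)} (α : ℝ) (v : LS Ω) : ℝ≥0∞ :=
  ∫⁻ x, ENNReal.ofReal (|v.fn x| ^ (α + 2)) ∂(mu Ω)

/-- `∫ v ψ`. -/
def pair {Ω : Set (En d)} (v : LS Ω) (ψ : En d → ℝ) : ℝ := ∫ x, v.fn x * ψ x ∂(mu Ω)

/-- `∫ G · ∇ψ`. -/
def pairGrad {Ω : Set (En d)} (G : LV Ω) (ψ : En d → ℝ) : ℝ :=
  ∫ x, ⟪G.fn x, gradient ψ x⟫_ℝ ∂(mu Ω)

/-- `∫ a |v|^α v ψ`. -/
def pairDamp {Ω : Set (En d)} (a α : ℝ) (v : LS Ω) (ψ : En d → ℝ) : ℝ :=
  ∫ x, a * |v.fn x| ^ α * v.fn x * ψ x ∂(mu Ω)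

/-- The energy inequality between the times `s` and `t`. -/
def EnIneq {Ω : Set (En d)} (a α : ℝ) (v : ℝ → LS Ω) (G : ℝ → LV Ω) (s t : ℝ) : Prop :=
  ENNReal.ofReal (energy (v t) (G t)) +
    ENNReal.ofReal (2 * a) * ∫⁻ r in Icc s t, dissip α (v r) ≤ ENNReal.ofReal (energy (v s) (G s))

/-- The equation `v_t - div G + a |v|^α v = 0`, tested with `ψ` and integrated from `0` to `t`. -/
def WeakEq {Ω : Set (En d)} (a α : ℝ) (v : ℝ → LS Ω) (G : ℝ → LV Ω) (ψ : En d → ℝ) (t : ℝ) :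
    Prop :=
  IntervalIntegrable (fun s => pairDamp a α (v s) ψ) volume 0 t ∧
    pair (v t) ψ = pair (v 0) ψ - ∫ s in (0:ℝ)..t, (pairGrad (G s) ψ + pairDamp a α (v s) ψ)

/-- Energy solutions of `u_tt - Δ u + a |u_t|^α u_t = 0`, `u = 0` on the boundary, for `t ≥ 0`
(`v = u_t`, `G = ∇ u`): continuous with values in the energy space `H^1_0 × L^2`, with the energy
inequality between any two times (so `v` is in `L^(α+2)` locally in time); the equation holds in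
the sense of distributions. -/
structure Sol (Ω : Set (En d)) (a α : ℝ) (u v : ℝ → LS Ω) (G : ℝ → LV Ω) : Prop where
  dom : ∀ t, 0 ≤ t → (u t, G t) ∈ H1 Ω
  v_cont : ContinuousOn v (Ici 0)
  G_cont : ContinuousOn G (Ici 0)
  du : ∀ t, 0 ≤ t → u t = u 0 + ∫ s in (0:ℝ)..t, v s
  en : ∀ s t, 0 ≤ s → s ≤ t → EnIneq a α v G s t
  eq : ∀ ψ, Tst Ω ψ → ∀ t, 0 ≤ t → WeakEq a α v G ψ t

theorem sol_iff (Ω : Set (En d)) (a α : ℝ) (u v : ℝ → LS Ω) (G : ℝ → LV Ω) :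
    Sol Ω a α u v G ↔ EnSol Ω a α u v G := by
  constructor
  · intro h
    exact ⟨h.dom, h.v_cont, h.G_cont, h.du, h.en, fun ψ hψ t ht => (h.eq ψ hψ t ht).1,
      fun ψ hψ t ht => (h.eq ψ hψ t ht).2⟩
  · intro h
    exact ⟨h.dom, h.v_cont, h.G_cont, h.du, h.en, fun ψ hψ t ht => ⟨h.gint ψ hψ t ht, h.eq ψ hψ t ht⟩⟩

theorem energy_eq {Ω : Set (En d)} (v : LS Ω) (G : LV Ω) : energy v G = ‖G‖ ^ 2 + ‖v‖ ^ 2 := by
  have h1 : ‖(show Lp ℝ 2 (mu Ω) from v)‖ ^ 2 = ∫ x, ‖(show Lp ℝ 2 (mu Ω) from v) x‖ ^ 2 ∂(mu Ω) :=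
    H62.norm_sq_eq _
  have h2 : ‖(show Lp (En d) 2 (mu Ω) from G)‖ ^ 2 =
      ∫ x, ‖(show Lp (En d) 2 (mu Ω) from G) x‖ ^ 2 ∂(mu Ω) := H62.norm_sq_eq _
  show _ = ‖(show Lp (En d) 2 (mu Ω) from G)‖ ^ 2 + ‖(show Lp ℝ 2 (mu Ω) from v)‖ ^ 2
  rw [h1, h2, add_comm, ← integral_add (H62.integrable_sq _) (H62.integrable_sq _)]
  refine integral_congr_ae (Eventually.of_forall fun x => ?_)
  show v.fn x ^ 2 + _ = ‖v.fn x‖ ^ 2 + _
  rw [Real.norm_eq_abs, sq_abs]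
  rfl

/-- The energy space `H^1_0(Ω) × L^2(Ω)`, as the set of the triples `(u, ∇u, v)`. -/
def Data (Ω : Set (En d)) : Set (LS Ω × LV Ω × LS Ω) := {P | (P.1, P.2.1) ∈ H1 Ω}

/-- `S` is a dense subset of the energy space. -/
def DenseData (Ω : Set (En d)) (S : Set (LS Ω × LV Ω × LS Ω)) : Prop :=
  S ⊆ Data Ω ∧ Data Ω ⊆ closure S

/-- `S` is a `G_δ` set. -/
def Gdelta (Ω : Set (En d)) (S : Set (LS Ω × LV Ω × LS Ω)) : Prop := IsGδ S

/-- Every datum of the energy space has an energy solution. -/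
def Existence (Ω : Set (En d)) (a α : ℝ) : Prop :=
  ∀ P ∈ Data Ω, ∃ (u v : ℝ → LS Ω) (G : ℝ → LV Ω), Sol Ω a α u v G ∧ (u 0, G 0, v 0) = P

/-- The distance of two energy solutions in the energy norm is nonincreasing. -/
def Contraction (Ω : Set (En d)) (a α : ℝ) : Prop :=
  ∀ (u v u' v' : ℝ → LS Ω) (G G' : ℝ → LV Ω), Sol Ω a α u v G → Sol Ω a α u' v' G' →
    ∀ s t, 0 ≤ s → s ≤ t → energy (v t - v' t) (G t - G' t) ≤ energy (v s - v' s) (G s - G' s)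

/-- Two energy solutions with the same data are equal for all `t ≥ 0`. -/
def Uniqueness (Ω : Set (En d)) (a α : ℝ) : Prop :=
  ∀ (u v u' v' : ℝ → LS Ω) (G G' : ℝ → LV Ω), Sol Ω a α u v G → Sol Ω a α u' v' G' →
    (u 0, G 0, v 0) = (u' 0, G' 0, v' 0) → ∀ t, 0 ≤ t → (u t, G t, v t) = (u' t, G' t, v' t)

/-- The data of the energy space such that the energy `E(t)` of the energy solution has the
property `Q`. -/
def DataWith (Ω : Set (En d)) (a α : ℝ) (Q : (ℝ → ℝ) → Prop) : Set (LS Ω × LV Ω × LS Ω) :=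
  {P | P ∈ Data Ω ∧ ∀ (u v : ℝ → LS Ω) (G : ℝ → LV Ω), Sol Ω a α u v G → (u 0, G 0, v 0) = P →
    Q fun t => energy (v t) (G t)}

/-- The property in part (D): `m (1 + t)^(-K) ≤ E(t) ≤ M (1 + t)^(-2/α)` for all `t ≥ 0`,
`E(t) ≤ C t^(-2/α)` for large `t`, and the set of the `t` with `c t^(-2/α) ≤ E(t)` has lower
logarithmic density at least `g`. -/
def PropD (α c C g K : ℝ) (E : ℝ → ℝ) : Prop :=
  (∃ M : ℝ, ∀ t, 0 ≤ t → E t ≤ M * (1 + t) ^ (-(2 / α))) ∧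
  (∃ m : ℝ, 0 < m ∧ ∀ t, 0 ≤ t → m * (1 + t) ^ (-K) ≤ E t) ∧
  (∀ᶠ t : ℝ in atTop, E t ≤ C * t ^ (-(2 / α))) ∧ LowLog {t | c * t ^ (-(2 / α)) ≤ E t} g

/-- The property in part (G): `E(t) ≤ C t^(-2/α)` for large `t`, and the set of the `t` with
`c t^(-2/α) ≤ E(t)` has upper logarithmic density at least `g`. -/
def PropG (α c C g : ℝ) (E : ℝ → ℝ) : Prop :=
  (∀ᶠ t : ℝ in atTop, E t ≤ C * t ^ (-(2 / α))) ∧ UppLog {t | c * t ^ (-(2 / α)) ≤ E t} g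

end

end Pool.Agent.BEL.Pub
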